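import Mathlib
import Pool.Agent.W406.TW.LT

set_option autoImplicit false

/-! # Local conditions on the trace of Frobenius, for almost all quadratic twists -/

namespace Pool.Agent.Q265.KB

open Finset Pool.Agent.W406.TW

/-- the good primes up to `x` with the property `Q p a`, `a` the trace of Frobenius of `y² = x³ + A x + B` -/
noncomputable def cq (A B : ℤ) (Q : ℕ → ℤ → Prop) (x : ℕ) : ℕ := by
  classical
  exact ((Icc 1 x).filter fun p : ℕ =>
    p.Prime ∧ ¬ ((p : ℤ) ∣ 2 * (4 * A ^ 3 + 27 * B ^ 2)) ∧ Q p (ap A B p)).card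

/-- the same with the opposite trace -/
noncomputable def cm (A B : ℤ) (Q : ℕ → ℤ → Prop) (x : ℕ) : ℕ := cq A B (fun p a => Q p (-a)) x

/-- the primes with one of the two properties -/
noncomputable def PQ (A B : ℤ) (Q : ℕ → ℤ → Prop) (x : ℕ) : Finset ℕ := by
  classical
  exact (Icc 1 x).filter fun p : ℕ =>
    p.Prime ∧ ¬ ((p : ℤ) ∣ 2 * (4 * A ^ 3 + 27 * B ^ 2)) ∧ (Q p (ap A B p) ∨ Q p (-ap A B p))

lemma mem_PQ {A B : ℤ} {Q : ℕ → ℤ → Prop} {x p : ℕ} : p ∈ PQ A B Q x ↔ (1 ≤ p ∧ p ≤ x) ∧ p.Prime ∧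
    ¬ ((p : ℤ) ∣ 2 * (4 * A ^ 3 + 27 * B ^ 2)) ∧ (Q p (ap A B p) ∨ Q p (-ap A B p)) := by
  classical
  unfold PQ
  rw [mem_filter, mem_Icc]

/-- the indicator functions -/
noncomputable def ip (A B : ℤ) (Q : ℕ → ℤ → Prop) (p : ℕ) : ℝ := by
  classical
  exact if Q p (ap A B p) then 1 else 0

noncomputable def im (A B : ℤ) (Q : ℕ → ℤ → Prop) (p : ℕ) : ℝ := by
  classical
  exact if Q p (-ap A B p) then 1 else 0

lemma cq_eq (A B : ℤ) (Q : ℕ → ℤ → Prop) (x : ℕ) : (cq A B Q x : ℝ) = ∑ p ∈ PQ A B Q x, ip A B Q p := by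
  classical
  have h : cq A B Q x = ((PQ A B Q x).filter (fun p => Q p (ap A B p))).card := by
    unfold cq
    congr 1
    ext p
    rw [mem_filter, mem_filter, mem_PQ, mem_Icc]
    tauto
  rw [h, card_filter]
  push_cast
  rfl

lemma cm_eq (A B : ℤ) (Q : ℕ → ℤ → Prop) (x : ℕ) : (cm A B Q x : ℝ) = ∑ p ∈ PQ A B Q x, im A B Q p := by
  classical
  have h : cm A B Q x = ((PQ A B Q x).filter (fun p => Q p (-ap A B p))).card := by
    unfold cm cq
    congr 1
    ext p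
    rw [mem_filter, mem_filter, mem_PQ, mem_Icc]
    tauto
  rw [h, card_filter]
  push_cast
  rfl

lemma card_le (A B : ℤ) (Q : ℕ → ℤ → Prop) (x : ℕ) : ((PQ A B Q x).card : ℝ) ≤ cq A B Q x + cm A B Q x := by
  classical
  rw [cq_eq, cm_eq, ← sum_add_distrib, card_eq_sum_ones]
  push_cast
  refine sum_le_sum fun p hp => ?_
  obtain ⟨_, _, _, h | h⟩ := mem_PQ.1 hp
  · unfold ip im
    rw [if_pos h]
    split_ifs <;> norm_num
  · unfold ip im
    rw [if_pos h]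
    split_ifs <;> norm_num

lemma cq_twist (A B D : ℤ) (Q : ℕ → ℤ → Prop) (x : ℕ) :
    (cq (A * D ^ 2) (B * D ^ 3) Q x : ℝ) =
      ∑ p ∈ PQ A B Q x, ((if (p : ℤ) ∣ D then 0 else ip A B Q p + im A B Q p) +
        (ip A B Q p - im A B Q p) * (jacobiSym D p : ℝ)) / 2 := by
  classical
  have h1 : cq (A * D ^ 2) (B * D ^ 3) Q x = ((PQ A B Q x).filter (fun p : ℕ =>
      ¬ (p : ℤ) ∣ D ∧ Q p ((jacobiSym D p : ℤ) * ap A B p))).card := by
    unfold cq
    congr 1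
    ext p
    rw [mem_filter, mem_filter, mem_PQ, mem_Icc]
    constructor
    · rintro ⟨hp, hpp, hnd, hap⟩
      have hdisc : 2 * (4 * (A * D ^ 2) ^ 3 + 27 * (B * D ^ 3) ^ 2) =
        2 * (4 * A ^ 3 + 27 * B ^ 2) * D ^ 6 := by ring
      have hpD : ¬ (p : ℤ) ∣ D := by
        intro h
        apply hnd
        rw [hdisc]
        exact Dvd.dvd.mul_left (dvd_pow h (by norm_num)) _
      have hpd : ¬ (p : ℤ) ∣ 2 * (4 * A ^ 3 + 27 * B ^ 2) := by
        intro h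
        apply hnd
        rw [hdisc]
        exact Dvd.dvd.mul_right h _
      have hp2 : p ≠ 2 := by
        rintro rfl
        exact hpd (Dvd.intro _ rfl)
      rw [ap_twist A B D hpp hp2] at hap
      refine ⟨⟨hp, hpp, hpd, ?_⟩, hpD, hap⟩
      rcases jacobiSym.trichotomy D p with h | h | h
      · exfalso
        have : NeZero p := ⟨hpp.ne_zero⟩
        have h2 := (jacobiSym.eq_zero_iff_not_coprime).1 h
        apply h2
        rw [Int.gcd_comm]
        exact Int.isCoprime_iff_gcd_eq_one.1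
          (((Nat.prime_iff_prime_int.1 hpp).coprime_iff_not_dvd).2 hpD)
      · rw [h, one_mul] at hap; left; exact hap
      · rw [h, neg_one_mul] at hap; right; exact hap
    · rintro ⟨⟨hp, hpp, hpd, _⟩, hpD, hap⟩
      have hp2 : p ≠ 2 := by
        rintro rfl
        exact hpd (Dvd.intro _ rfl)
      refine ⟨hp, hpp, ?_, ?_⟩
      · rw [dvd_disc A B D hpp hpD]; exact hpd
      · rw [ap_twist A B D hpp hp2]; exact hap
  rw [h1, card_filter]
  push_cast
  refine sum_congr rfl fun p hp => ?_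
  obtain ⟨_, hpp, hpd, hor⟩ := mem_PQ.1 hp
  by_cases hpD : (p : ℤ) ∣ D
  · have h0 : jacobiSym D p = 0 := by
      by_contra hne
      exact not_dvd_of_jac hpp hne hpD
    rw [if_pos hpD, h0, if_neg (fun h => h.1 hpD)]
    simp
  · rw [if_neg hpD]
    have hj : jacobiSym D p = 1 ∨ jacobiSym D p = -1 := by
      rcases jacobiSym.trichotomy D p with h | h | h
      · exfalso
        have : NeZero p := ⟨hpp.ne_zero⟩
        have h2 := (jacobiSym.eq_zero_iff_not_coprime).1 h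
        apply h2
        rw [Int.gcd_comm]
        exact Int.isCoprime_iff_gcd_eq_one.1
          (((Nat.prime_iff_prime_int.1 hpp).coprime_iff_not_dvd).2 hpD)
      · left; exact h
      · right; exact h
    unfold ip im
    rcases hj with hj | hj
    · rw [hj, one_mul]
      by_cases hq : Q p (ap A B p)
      · rw [if_pos ⟨hpD, hq⟩, if_pos hq]; push_cast; ring
      · rw [if_neg (fun h => hq h.2), if_neg hq]; push_cast; ring
    · rw [hj, neg_one_mul]
      by_cases hq : Q p (-ap A B p)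
      · rw [if_pos ⟨hpD, hq⟩, if_pos hq]; push_cast; ring
      · rw [if_neg (fun h => hq h.2), if_neg hq]; push_cast; ring

/-- The general law for twists: for a family of polynomial size of local conditions. -/
theorem gen (κ ε : ℝ) (hκ : 0 ≤ κ) (hε : 0 < ε) :
    ∃ C c : ℝ, 0 < C ∧ 0 < c ∧ ∃ N₀ : ℕ, ∀ N : ℕ, N₀ ≤ N → ∀ A B : ℤ,
      ∀ (α : Type) (Λ : ℕ → Finset α), (∀ y : ℕ, (Real.log N) ^ C ≤ y → (y : ℝ) ≤ (N : ℝ) ^ c →
        ((Λ y).card : ℝ) ≤ (y : ℝ) ^ κ) → ∀ Q : α → ℕ → ℤ → Prop,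
      ({D : ℤ | D ≠ 0 ∧ |D| ≤ N ∧ ∃ x : ℕ, (Real.log N) ^ C ≤ x ∧ (x : ℝ) ≤ (N : ℝ) ^ c ∧
        ∃ l ∈ Λ x, √((cq A B (Q l) x : ℝ) + cm A B (Q l) x) * (x : ℝ) ^ ε <
          |(cq (A * D ^ 2) (B * D ^ 3) (Q l) x : ℝ) - (cq A B (Q l) x + cm A B (Q l) x) / 2|}.ncard : ℝ) ≤
        (N : ℝ) ^ (1 - c) := by
  classical
  obtain ⟨A₀, c, hA₀, hc, N₁, hN₁⟩ := uniform 1 κ (ε / 2) hκ (by positivity)
  set C : ℝ := max A₀ (2 / ε) with hC
  have hC0 : 0 < C := lt_max_of_lt_left hA₀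
  have hK₁ : ∃ K₁ : ℕ, ∀ K : ℕ, K₁ ≤ K → (3 : ℝ) ≤ (K : ℝ) ^ (ε / 2) := by
    have := ((tendsto_rpow_atTop (by positivity : 0 < ε / 2)).comp
      tendsto_natCast_atTop_atTop).eventually_ge_atTop (3 : ℝ)
    exact Filter.eventually_atTop.1 this
  obtain ⟨K₁, hK₁⟩ := hK₁
  have hlim := ((tendsto_rpow_atTop hC0).comp (Real.tendsto_log_atTop.comp
    tendsto_natCast_atTop_atTop)).eventually_ge_atTop (K₁ : ℝ)
  have hlim2 := (Real.tendsto_log_atTop.comp tendsto_natCast_atTop_atTop).eventually_ge_atTop (1 : ℝ)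
  obtain ⟨N₂, hN₂⟩ := Filter.eventually_atTop.1 (hlim.and hlim2)
  refine ⟨C, c, hC0, hc, max N₁ N₂, fun N hN A B α Λ hΛ Q => ?_⟩
  have hNN₁ : N₁ ≤ N := le_trans (le_max_left _ _) hN
  obtain ⟨hL, hL1⟩ := hN₂ N (le_trans (le_max_right _ _) hN)
  simp only [Function.comp_apply] at hL hL1
  -- restrict the family to the range
  obtain ⟨Λ', hΛ'⟩ : ∃ Λ' : ℕ → Finset α, Λ' = fun y : ℕ => if (Real.log N) ^ C ≤ (y : ℝ) then Λ y else ∅ := ⟨_, rfl⟩
  have key := hN₁ N hNN₁ ℕ α Λ' (fun y l => PQ A B (Q l) y)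
    (fun _ l => fun p => ip A B (Q l) p - im A B (Q l) p) (fun _ _ p => p) ?_
  swap
  · intro y hy1 hy2
    constructor
    · rw [hΛ']
      show (((if (Real.log N) ^ C ≤ (y : ℝ) then Λ y else ∅ : Finset α).card : ℕ) : ℝ) ≤ _
      split_ifs with h
      · exact hΛ y h hy2
      · simp only [card_empty, Nat.cast_zero]
        positivity
    · intro l hl
      have hodd : ∀ p ∈ PQ A B (Q l) y, Odd p := by
        intro p hp
        obtain ⟨_, hpp, hpd, _⟩ := mem_PQ.1 hp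
        apply hpp.odd_of_ne_two
        rintro rfl
        exact hpd (Dvd.intro _ rfl)
      refine ⟨?_, hodd, ?_, ?_, ?_⟩
      · have : (PQ A B (Q l) y).card ≤ (Icc 1 y).card := by
          apply card_le_card
          intro p hp
          exact mem_Icc.2 (mem_PQ.1 hp).1
        simpa using this
      · intro p hp
        rw [pow_one]
        exact (mem_PQ.1 hp).1.2
      · exact indep_id _ fun p hp => (mem_PQ.1 hp).2.1
      · intro p _
        unfold ip im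
        split_ifs <;> norm_num
  refine le_trans ?_ key
  rw [← Set.ncard_coe_finset]
  have hle : ({D : ℤ | D ≠ 0 ∧ |D| ≤ N ∧ ∃ x : ℕ, (Real.log N) ^ C ≤ x ∧ (x : ℝ) ≤ (N : ℝ) ^ c ∧
        ∃ l ∈ Λ x, √((cq A B (Q l) x : ℝ) + cm A B (Q l) x) * (x : ℝ) ^ ε <
          |(cq (A * D ^ 2) (B * D ^ 3) (Q l) x : ℝ) - (cq A B (Q l) x + cm A B (Q l) x) / 2|}).ncard ≤ _ :=
    Set.ncard_le_ncard (t := (((Icc (-(N : ℤ)) N).filter (fun D => ∃ y : ℕ, (Real.log N) ^ A₀ ≤ y ∧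
      (y : ℝ) ≤ (N : ℝ) ^ c ∧ ∃ l ∈ Λ' y, √(((PQ A B (Q l) y).card : ℕ) : ℝ) * (y : ℝ) ^ (ε / 2) <
        |SD (PQ A B (Q l) y) (fun p => ip A B (Q l) p - im A B (Q l) p) (fun p => p) D|) : Finset ℤ) : Set ℤ)) ?_
          (Finset.finite_toSet _)
  · exact_mod_cast hle
  intro D hD
  obtain ⟨hD0, hDN, x, hx1, hx2, l, hl, hlt⟩ := hD
  rw [mem_coe, mem_filter]
  refine ⟨mem_Icc.2 (abs_le.1 hDN), ?_⟩
  by_contra hcon
  apply absurd hlt
  rw [not_lt]
  have hxA : (Real.log N) ^ A₀ ≤ x :=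
    le_trans (Real.rpow_le_rpow_of_exponent_le hL1 (le_max_left _ _)) hx1
  have hxK : K₁ ≤ x := by exact_mod_cast le_trans hL hx1
  have hxε : Real.log N ≤ (x : ℝ) ^ (ε / 2) := by
    have h1 : (Real.log N) ^ (2 / ε) ≤ x :=
      le_trans (Real.rpow_le_rpow_of_exponent_le hL1 (le_max_right _ _)) hx1
    calc Real.log N = ((Real.log N) ^ (2 / ε)) ^ (ε / 2) := by
          rw [← Real.rpow_mul (by linarith)]
          rw [show 2 / ε * (ε / 2) = 1 by field_simp, Real.rpow_one]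
      _ ≤ _ := Real.rpow_le_rpow (by positivity) h1 (by positivity)
  set P := PQ A B (Q l) x with hP
  have hPp : ∀ p ∈ P, p.Prime := fun p hp => (mem_PQ.1 hp).2.1
  have hcard : ((P.card : ℕ) : ℝ) ≤ cq A B (Q l) x + cm A B (Q l) x := card_le A B (Q l) x
  have hdec : (cq (A * D ^ 2) (B * D ^ 3) (Q l) x : ℝ) - (cq A B (Q l) x + cm A B (Q l) x) / 2 =
      (SD P (fun p => ip A B (Q l) p - im A B (Q l) p) (fun p => p) D -
        ∑ p ∈ P.filter (fun p : ℕ => (p : ℤ) ∣ D), (ip A B (Q l) p + im A B (Q l) p)) / 2 := by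
    rw [cq_twist, cq_eq, cm_eq, ← hP, ← sum_add_distrib, ← sum_div, ← sub_div, sum_filter]
    congr 1
    unfold SD
    rw [← sum_sub_distrib, ← sum_sub_distrib]
    refine sum_congr rfl fun p _ => ?_
    split_ifs <;> ring
  rw [hdec]
  have hsmall : |SD P (fun p => ip A B (Q l) p - im A B (Q l) p) (fun p => p) D| ≤ √(P.card : ℝ) * (x : ℝ) ^ (ε / 2) := by
    by_contra hlt'
    rw [not_le] at hlt'
    apply hcon
    refine ⟨x, hxA, hx2, l, ?_, hlt'⟩
    rw [hΛ']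
    show l ∈ (if (Real.log N) ^ C ≤ (x : ℝ) then Λ x else ∅)
    rw [if_pos hx1]
    exact hl
  have hdiv : |∑ p ∈ P.filter (fun p : ℕ => (p : ℤ) ∣ D), (ip A B (Q l) p + im A B (Q l) p)| ≤
      √(P.card : ℝ) * (4 * (x : ℝ) ^ (ε / 2)) := by
    have hb : |∑ p ∈ P.filter (fun p : ℕ => (p : ℤ) ∣ D), (ip A B (Q l) p + im A B (Q l) p)| ≤
        2 * ((P.filter (fun p : ℕ => (p : ℤ) ∣ D)).card : ℝ) := by
      refine (abs_sum_le_sum_abs _ _).trans ?_
      calc ∑ p ∈ P.filter (fun p : ℕ => (p : ℤ) ∣ D), |ip A B (Q l) p + im A B (Q l) p|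
          ≤ ∑ _p ∈ P.filter (fun p : ℕ => (p : ℤ) ∣ D), (2 : ℝ) := by
            refine sum_le_sum fun p _ => ?_
            unfold ip im
            split_ifs <;> norm_num
        _ = _ := by rw [sum_const, nsmul_eq_mul]; ring
    rcases P.eq_empty_or_nonempty with hPe | hPn
    · rw [hPe]; simp
    · have h1 : (1 : ℝ) ≤ √(P.card : ℝ) := by
        rw [Real.one_le_sqrt]
        exact_mod_cast hPn.card_pos
      have h2 := few_div P hPp D hD0
      have h3 : Real.log (D.natAbs : ℝ) ≤ (x : ℝ) ^ (ε / 2) := by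
        refine le_trans ?_ hxε
        apply Real.log_le_log
        · have := Int.natAbs_pos.2 hD0
          exact_mod_cast this
        · have : (D.natAbs : ℤ) ≤ N := by rwa [Int.natCast_natAbs]
          exact_mod_cast this
      have h4 : 0 ≤ (x : ℝ) ^ (ε / 2) := by positivity
      nlinarith
  have h3 := hK₁ x hxK
  have hx0 : (0 : ℝ) < x := by
    have : (0 : ℝ) < (Real.log N) ^ C := Real.rpow_pos_of_pos (by linarith) _
    linarith
  have e2 : (x : ℝ) ^ ε = (x : ℝ) ^ (ε / 2) * (x : ℝ) ^ (ε / 2) := by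
    rw [← Real.rpow_add hx0]; congr 1; ring
  rw [e2]
  set b := (x : ℝ) ^ (ε / 2) with hb
  have hb0 : 0 < b := Real.rpow_pos_of_pos hx0 _
  have hs0 : 0 ≤ √(P.card : ℝ) := Real.sqrt_nonneg _
  have hss : √(P.card : ℝ) ≤ √((cq A B (Q l) x : ℝ) + cm A B (Q l) x) := Real.sqrt_le_sqrt hcard
  rw [abs_div, abs_of_pos (by norm_num : (0 : ℝ) < 2), div_le_iff₀ (by norm_num : (0 : ℝ) < 2)]
  calc |SD P (fun p => ip A B (Q l) p - im A B (Q l) p) (fun p => p) D -
          ∑ p ∈ P.filter (fun p : ℕ => (p : ℤ) ∣ D), (ip A B (Q l) p + im A B (Q l) p)|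
      ≤ |SD P (fun p => ip A B (Q l) p - im A B (Q l) p) (fun p => p) D| +
          |∑ p ∈ P.filter (fun p : ℕ => (p : ℤ) ∣ D), (ip A B (Q l) p + im A B (Q l) p)| := abs_sub _ _
    _ ≤ √(P.card : ℝ) * b + √(P.card : ℝ) * (4 * b) := by linarith
    _ = √(P.card : ℝ) * b * 5 := by ring
    _ ≤ √(P.card : ℝ) * b * (b * 2) := mul_le_mul_of_nonneg_left (by linarith) (by positivity)
    _ = √(P.card : ℝ) * (b * b) * 2 := by ring
    _ ≤ √((cq A B (Q l) x : ℝ) + cm A B (Q l) x) * (b * b) * 2 := by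
        have : 0 ≤ b * b := by positivity
        nlinarith [mul_le_mul_of_nonneg_right hss this]

end Pool.Agent.Q265.KB
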